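import Pool.Agent.MP_3ee8cb_gt.CYC.Area
import Pool.Agent.MP_3ee8cb_gt.DF.RCEN

/-! The centre of mass for an integrable weight, and the area inequality on the sphere. -/

namespace Pool.Agent.MP_3ee8cb_gt.CYC

open DN Set MeasureTheory Metric
open scoped ENNReal NNReal

variable [Dim]

/-- The area inequality without any assumption of differentiability. -/
theorem covZ {ξ : V → V} (c : ContinuousOn ξ {a | a ≠ 0})
    (hom : ∀ (r : ℝ) a, 0 < r → a ≠ 0 → ξ (r • a) = r • ξ a) (inj : InjOn ξ {a | a ≠ 0})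
    (ne : ∀ a, a ≠ 0 → ξ a ≠ 0) (f : V → ℝ≥0∞) (hf : Measurable f) :
    ∫⁻ v : sphere (0 : V) 1, ENNReal.ofReal (|(fderiv ℝ ξ v).det| / ‖ξ v‖ ^ dm) *
        f (‖ξ v‖⁻¹ • ξ v) ∂(volume : Measure V).toSphere ≤
      ∫⁻ u : sphere (0 : V) 1, f u ∂(volume : Measure V).toSphere := by
  have h := area_le (volume : Measure V) (measurableSet_of_differentiableAt ℝ ξ)
    (measurable_of_continuousOn_compl_singleton 0 c) hom inj ne (fun a ha _ => ha) hf
  rw [finrank_euclideanSpace_fin] at h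
  refine le_trans (le_of_eq (lintegral_congr fun a => ?_)) h
  by_cases ha : DifferentiableAt ℝ ξ a
  · rw [indicator_of_mem (s := {x | DifferentiableAt ℝ ξ x}) ha]
  · rw [indicator_of_notMem (s := {x | DifferentiableAt ℝ ξ x}) ha,
      fderiv_zero_of_not_differentiableAt ha]
    simp [ContinuousLinearMap.det]

/-- The centre of mass of the feet. -/
theorem cenZ {m : MF} {lg : V × V → V} (ho : m.OK) (hj : m.Jac) (hl : m.Had lg) {y : V → V}
    {ν : V → ℝ} {D : ℝ} (hy : ContinuousOn y {v | ‖v‖ = 1}) (hp : ∀ v, ‖v‖ = 1 → 0 ≤ ν v)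
    (hν : Integrable (fun v : sphere (0 : V) 1 => ν v) (volume : Measure V).toSphere)
    (hD : ∀ v v', ‖v‖ = 1 → ‖v'‖ = 1 → ‖lg (y v, y v')‖ ≤ D) :
    ∃ o, (∀ v, ‖v‖ = 1 → ‖lg (o, y v)‖ ≤ D) ∧ ∀ w : V,
      sph (fun v => ν v * ‖lg (o, y v)‖ ^ 2) ≤ sph fun v => ν v * ‖lg (o, y v) - w‖ ^ 2 := by
  have hn : ∀ a : sphere (0 : V) 1, ‖a.1‖ = 1 := fun a => by simp
  have cy : Continuous fun a : sphere (0 : V) 1 => y a :=
    hy.comp_continuous continuous_subtype_val hn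
  obtain ⟨a₀, -⟩ : ∃ a₀ : sphere (0 : V) 1, True := ⟨⟨EuclideanSpace.single 0 1, by simp⟩, trivial⟩
  let μ : Measure (sphere (0 : V) 1) :=
    (volume : Measure V).toSphere.withDensity fun v => ENNReal.ofReal (ν v)
  have : IsFiniteMeasure μ := isFiniteMeasure_withDensity_ofReal hν.2
  have e : ∀ g : V → ℝ, sph (fun v => ν v * g v) = ∫ a : sphere (0 : V) 1, 1 * g a ∂μ := fun g => by
    rw [integral_withDensity_eq_integral_toReal_smul₀ hν.1.aemeasurable.ennreal_ofReal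
      (.of_forall fun _ => ENNReal.ofReal_lt_top)]
    refine integral_congr_ae (.of_forall fun a => ?_)
    simp [ENNReal.toReal_ofReal (hp a (hn a))]
  by_cases h0 : μ = 0
  · refine ⟨y a₀, fun v hv => hD _ _ (hn a₀) hv, fun w => ?_⟩
    rw [e, e, h0]
    simp
  · obtain ⟨o, h1, h2⟩ := DF.CEN.main (μ := μ) (ν := fun _ => 1) ho hj hl cy continuous_const
      (fun _ => one_pos) h0 a₀ fun a b => hD a b (hn a) (hn b)
    refine ⟨o, fun v hv => h1 ⟨v, by simpa using hv⟩, fun w => ?_⟩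
    rw [e, e]
    exact h2 w

end Pool.Agent.MP_3ee8cb_gt.CYC
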