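import Pool.Agent.MP_3ee8cb_gt.DN.Defs

/-! The equality case of the fibre inequality. -/

namespace Pool.Agent.MP_3ee8cb_gt.CYC

open DN Set MeasureTheory Metric
open scoped ENNReal

variable [Dim]

theorem feet {ν : V → ℝ} {F : V → V} (hp : ∀ v, ‖v‖ = 1 → 0 ≤ ν v)
    (hν : Integrable (fun v : sphere (0 : V) 1 => ν v) (volume : Measure V).toSphere)
    (pos : ∀ᵐ v : sphere (0 : V) 1 ∂(volume : Measure V).toSphere, 0 < ν v)
    (cF : ContinuousOn F {v | ‖v‖ = 1})
    (h : sph ν + sph (fun v => ν v * ‖F v‖ ^ 2) ≤ sph fun _ => 1) :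
    ∫⁻ v : sphere (0 : V) 1, ENNReal.ofReal (ν v) ∂(volume : Measure V).toSphere ≤
        (volume : Measure V).toSphere univ ∧
      (∫⁻ v : sphere (0 : V) 1, ENNReal.ofReal (ν v) ∂(volume : Measure V).toSphere =
        (volume : Measure V).toSphere univ → ∀ v, ‖v‖ = 1 → F v = 0) := by
  have hn : ∀ a : sphere (0 : V) 1, ‖a.1‖ = 1 := fun a => by simp
  have c : Continuous fun a : sphere (0 : V) 1 => F a :=
    cF.comp_continuous continuous_subtype_val hn
  have p : ∀ a : sphere (0 : V) 1, 0 ≤ ν a * ‖F a‖ ^ 2 := fun a =>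
    mul_nonneg (hp a (hn a)) (sq_nonneg _)
  have e1 : ENNReal.ofReal (sph ν) =
      ∫⁻ v : sphere (0 : V) 1, ENNReal.ofReal (ν v) ∂(volume : Measure V).toSphere :=
    ofReal_integral_eq_lintegral_ofReal hν (.of_forall fun a => hp a (hn a))
  have e2 : ENNReal.ofReal (sph fun _ => 1) = (volume : Measure V).toSphere univ := by
    simp only [sph, integral_const, smul_eq_mul, mul_one]
    exact ofReal_measureReal
  have p0 : 0 ≤ sph fun v => ν v * ‖F v‖ ^ 2 := integral_nonneg p
  rw [← e1, ← e2]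
  refine ⟨ENNReal.ofReal_le_ofReal (by linarith), fun e v hv => ?_⟩
  have p1 : 0 ≤ sph ν := integral_nonneg fun a => hp a (hn a)
  have p2 : 0 ≤ sph fun _ => 1 := integral_nonneg fun _ => zero_le_one
  rw [ENNReal.ofReal_eq_ofReal_iff p1 p2] at e
  obtain ⟨C, hC⟩ := isCompact_univ.exists_bound_of_continuousOn (c.norm.pow 2).continuousOn
  have i : Integrable (fun a : sphere (0 : V) 1 => ν a * ‖F a‖ ^ 2)
      (volume : Measure V).toSphere :=
    hν.mul_bdd (c.norm.pow 2).aestronglyMeasurable (.of_forall fun a => hC a trivial)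
  have z := (integral_eq_zero_iff_of_nonneg p i).1 (le_antisymm (by
    change sph (fun v => ν v * ‖F v‖ ^ 2) ≤ 0
    linarith) p0)
  have z1 : (fun a : sphere (0 : V) 1 => F a) =ᵐ[(volume : Measure V).toSphere] fun _ => 0 := by
    filter_upwards [z, pos] with a h1 h2
    simpa [h2.ne'] using h1
  exact congrFun ((c.ae_eq_iff_eq _ continuous_const).1 z1) ⟨v, by simpa using hv⟩

end Pool.Agent.MP_3ee8cb_gt.CYC
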