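import Mathlib

/-! The area formula on the sphere as an inequality. -/

namespace Pool.Agent.MP_3ee8cb_gt.CYC

open Set Filter Topology MeasureTheory Metric
open scoped ENNReal

variable {E : Type*} [NormedAddCommGroup E] [InnerProductSpace ℝ E] [FiniteDimensional ℝ E]
  [MeasurableSpace E] [BorelSpace E] (μ : Measure E) [μ.IsAddHaarMeasure]

/-- Polar coordinates for nonnegative functions. -/
theorem lpolar [Nontrivial E] {F : E → ℝ≥0∞} (hF : Measurable F) :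
    ∫⁻ x, F x ∂μ = ∫⁻ a : sphere (0 : E) 1, ∫⁻ r : Ioi (0 : ℝ), F (r.1 • a.1)
      ∂Measure.volumeIoiPow (Module.finrank ℝ E - 1) ∂μ.toSphere := by
  have hm : Measurable fun p : sphere (0 : E) 1 × Ioi (0 : ℝ) => F (p.2.1 • p.1.1) :=
    hF.comp (by fun_prop)
  rw [← lintegral_prod _ hm.aemeasurable,
    ← μ.measurePreserving_homeomorphUnitSphereProd.lintegral_comp hm,
    ← setLIntegral_univ, ← setLIntegral_congr (μ := μ) (s := {0}ᶜ) (by simp),
    ← lintegral_subtype_comap (measurableSet_singleton (0 : E)).compl]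
  refine lintegral_congr fun x => ?_
  congr 1
  simp [smul_smul, mul_inv_cancel₀ (norm_ne_zero_iff.2 x.2)]

/-- A star shaped region. -/
theorem lstar [Nontrivial E] {F : E → ℝ≥0∞} (hF : Measurable F) (h : E → ℝ≥0∞) (ρ : E → ℝ)
    (hρ : ∀ a, ‖a‖ = 1 → 0 < ρ a)
    (e : ∀ a (r : ℝ), ‖a‖ = 1 → 0 < r → F (r • a) = if r < ρ a then h a else 0) :
    ∫⁻ x, F x ∂μ = ∫⁻ a : sphere (0 : E) 1,
      ENNReal.ofReal (ρ a ^ Module.finrank ℝ E / Module.finrank ℝ E) * h a ∂μ.toSphere := by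
  rw [lpolar μ hF]
  refine lintegral_congr fun a => ?_
  have h1 : ‖(a : E)‖ = 1 := mem_sphere_zero_iff_norm.1 a.2
  have h2 : (fun r : Ioi (0 : ℝ) => F (r.1 • a.1)) =
      (Iio (⟨ρ a, hρ a h1⟩ : Ioi (0 : ℝ))).indicator fun _ => h a := by
    funext r
    rw [e a r h1 r.2, indicator_apply]
    rfl
  have h3 : Module.finrank ℝ E - 1 + 1 = Module.finrank ℝ E :=
    Nat.sub_add_cancel Module.finrank_pos
  rw [h2, lintegral_indicator_const measurableSet_Iio, Measure.volumeIoiPow_apply_Iio, h3,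
    mul_comm, ← Nat.cast_succ, Nat.succ_eq_add_one, h3]

omit [FiniteDimensional ℝ E] [MeasurableSpace E] [BorelSpace E] in
theorem fd_ray {W : Type*} [NormedAddCommGroup W] [NormedSpace ℝ W] {ξ : E → W}
    (hom : ∀ (r : ℝ) a, 0 < r → a ≠ 0 → ξ (r • a) = r • ξ a) {a : E} (ha : a ≠ 0) {r : ℝ}
    (hr : 0 < r) (d : DifferentiableAt ℝ ξ a) : HasFDerivAt ξ (fderiv ℝ ξ a) (r • a) := by
  have h1 : HasFDerivAt ξ (fderiv ℝ ξ a) (r⁻¹ • r • a) := by
    rw [smul_smul, inv_mul_cancel₀ hr.ne', one_smul]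
    exact d.hasFDerivAt
  have h2 := (h1.comp (r • a) ((hasFDerivAt_id (r • a)).const_smul r⁻¹)).const_smul r
  refine (h2.congr_fderiv ?_).congr_of_eventuallyEq ?_
  · ext v
    simp [smul_smul, mul_inv_cancel₀ hr.ne']
  · filter_upwards [isOpen_ne.mem_nhds (smul_ne_zero hr.ne' ha)] with x hx
    simp only [Pi.smul_apply, Function.comp_apply]
    rw [hom _ x (inv_pos.2 hr) hx, smul_smul, mul_inv_cancel₀ hr.ne', one_smul]

/-- The area formula as an inequality. -/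
theorem area_le [Nontrivial E] {ξ : E → E} {G : Set E} (hG : MeasurableSet G)
    (mx : Measurable ξ) (hom : ∀ (r : ℝ) a, 0 < r → a ≠ 0 → ξ (r • a) = r • ξ a)
    (inj : InjOn ξ {a | a ≠ 0}) (ne : ∀ a, a ≠ 0 → ξ a ≠ 0)
    (dif : ∀ a ∈ G, ‖a‖ = 1 → DifferentiableAt ℝ ξ a) {f : E → ℝ≥0∞} (hf : Measurable f) :
    ∫⁻ a : sphere (0 : E) 1, G.indicator (fun a => ENNReal.ofReal
        (|(fderiv ℝ ξ a).det| / ‖ξ a‖ ^ Module.finrank ℝ E) * f (‖ξ a‖⁻¹ • ξ a)) a ∂μ.toSphere ≤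
      ∫⁻ u : sphere (0 : E) 1, f u ∂μ.toSphere := by
  classical
  obtain ⟨n, hn⟩ : ∃ n, n = Module.finrank ℝ E := ⟨_, rfl⟩
  have n0 : (0 : ℝ) < n := by
    rw [hn]
    exact_mod_cast Module.finrank_pos
  have mu : Measurable fun x : E => ‖x‖⁻¹ • x := by fun_prop
  have un : ∀ (a : E) (r : ℝ), ‖a‖ = 1 → 0 < r → ‖r • a‖⁻¹ • r • a = a := fun a r ha hr => by
    rw [norm_smul, ha, mul_one, Real.norm_of_nonneg hr.le, smul_smul, inv_mul_cancel₀ hr.ne',
      one_smul]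
  have a0 : ∀ a : E, ‖a‖ = 1 → a ≠ 0 := fun a ha => norm_ne_zero_iff.1 (by rw [ha]; simp)
  let C : Set E := {x | x ≠ 0 ∧ ‖x‖⁻¹ • x ∈ G ∧ ‖ξ x‖ < 1}
  have mC : MeasurableSet C := (measurableSet_singleton (0 : E)).compl.inter
    ((mu hG).inter (measurableSet_lt mx.norm measurable_const))
  have dC : ∀ x ∈ C, DifferentiableAt ℝ ξ x := fun x hx => by
    have h0 : 0 < ‖x‖ := norm_pos_iff.2 hx.1
    have h1 : ‖‖x‖⁻¹ • x‖ = 1 := by
      rw [norm_smul, norm_inv, norm_norm, inv_mul_cancel₀ h0.ne']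
    have := fd_ray hom (a0 _ h1) h0 (dif _ hx.2.1 h1)
    rw [smul_smul, mul_inv_cancel₀ h0.ne', one_smul] at this
    exact this.differentiableAt
  have k := lintegral_image_eq_lintegral_abs_det_fderiv_mul μ mC
    (fun x hx => (dC x hx).hasFDerivAt.hasFDerivWithinAt) (inj.mono fun x hx => hx.1)
    fun y => f (‖y‖⁻¹ • y)
  have k1 : ∫⁻ y in ξ '' C, f (‖y‖⁻¹ • y) ∂μ ≤ ∫⁻ y in ball (0 : E) 1, f (‖y‖⁻¹ • y) ∂μ :=
    lintegral_mono_set (by
      rintro _ ⟨x, hx, rfl⟩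
      exact mem_ball_zero_iff.2 hx.2.2)
  rw [k, ← lintegral_indicator mC, ← lintegral_indicator measurableSet_ball] at k1
  have md : Measurable fun x : E => ENNReal.ofReal |(fderiv ℝ ξ x).det| * f (‖ξ x‖⁻¹ • ξ x) :=
    ((ContinuousLinearMap.continuous_det.measurable.comp
      (measurable_fderiv ℝ ξ)).abs.ennreal_ofReal).mul (hf.comp (mu.comp mx))
  rw [lstar μ (md.indicator mC) (G.indicator fun a => ENNReal.ofReal |(fderiv ℝ ξ a).det| *
      f (‖ξ a‖⁻¹ • ξ a)) (fun a => ‖ξ a‖⁻¹)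
      (fun a ha => inv_pos.2 (norm_pos_iff.2 (ne a (a0 a ha)))) ?_,
    lstar μ (F := (ball 0 1).indicator fun y => f (‖y‖⁻¹ • y))
      ((hf.comp mu).indicator measurableSet_ball) f (fun _ => 1) (fun _ _ => one_pos) ?_,
    ← hn] at k1
  · have c0 : ENNReal.ofReal (1 / n : ℝ) ≠ 0 := (ENNReal.ofReal_pos.2 (by positivity)).ne'
    rw [← hn, ← ENNReal.mul_le_mul_iff_right c0 ENNReal.ofReal_ne_top,
      ← lintegral_const_mul' _ _ ENNReal.ofReal_ne_top,
      ← lintegral_const_mul' _ _ ENNReal.ofReal_ne_top]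
    refine le_trans (le_of_eq (lintegral_congr fun a => ?_)) (k1.trans (le_of_eq (by simp)))
    by_cases ha : (a : E) ∈ G
    · rw [indicator_of_mem ha, indicator_of_mem ha, ← mul_assoc, ← mul_assoc,
        ← ENNReal.ofReal_mul (by positivity), ← ENNReal.ofReal_mul (by positivity)]
      congr 2
      rw [inv_pow]
      ring
    · simp [indicator_of_notMem ha]
  · intro a r ha hr
    rw [indicator_apply, mem_ball_zero_iff, un a r ha hr, norm_smul, ha,
      mul_one, Real.norm_of_nonneg hr.le]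
  · intro a r ha hr
    have p : 0 < ‖ξ a‖ := norm_pos_iff.2 (ne a (a0 a ha))
    have e1 : r • a ∈ C ↔ a ∈ G ∧ r < ‖ξ a‖⁻¹ := by
      simp only [C, mem_ofPred_eq, un a r ha hr, hom r a hr (a0 a ha), norm_smul (r : ℝ) (ξ a),
        Real.norm_of_nonneg hr.le, smul_ne_zero hr.ne' (a0 a ha), ne_eq,
        not_false_eq_true, true_and]
      rw [← one_div, lt_div_iff₀ p]
    by_cases h1 : a ∈ G ∧ r < ‖ξ a‖⁻¹
    · rw [indicator_of_mem (e1.2 h1), if_pos h1.2, indicator_of_mem h1.1,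
        (fd_ray hom (a0 a ha) hr (dif a h1.1 ha)).fderiv, hom r a hr (a0 a ha), norm_smul,
        Real.norm_of_nonneg hr.le, smul_smul, mul_inv_rev, mul_assoc, inv_mul_cancel₀ hr.ne',
        mul_one]
    · rw [indicator_of_notMem (mt e1.1 h1)]
      split_ifs with h2
      · rw [indicator_of_notMem fun h3 => h1 ⟨h3, h2⟩]
      · rfl

end Pool.Agent.MP_3ee8cb_gt.CYC
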