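import Pool.Agent.MP_3ee8cb_gt.CYC.Cen
import Pool.Agent.MP_3ee8cb_gt.CYC.Feet
import Pool.Agent.MP_3ee8cb_gt.CYG.Gib
import Pool.Agent.MP_3ee8cb_gt.CYP.Chart
import Pool.Agent.MP_3ee8cb_gt.CYX.Xi
import Pool.Agent.MP_3ee8cb_gt.CY.Ksl
import Pool.Agent.MP_3ee8cb_gt.CYF.Spec
import Pool.Agent.MP_3ee8cb_gt.CYO.Meas
import Pool.Agent.MP_3ee8cb_gt.DF.RDER
import Pool.Agent.MP_3ee8cb_gt.DF.RGEO

/-! The fibre inequality for a continuous front from the local two point bounds. -/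

namespace Pool.Agent.MP_3ee8cb_gt.CYC

open DN DF CYG CYF CYX Set MeasureTheory Metric
open scoped ENNReal NNReal RealInnerProductSpace

variable [Dim]

/-- The local two point bounds of the transported front. -/
def TWO (c K δ : ℝ) (s l : ℝ≥0) : Prop := ∀ (m : MF) (lg : V × V → V) (σ : V → V × V) (a : ℝ)
  (o : V) (X : V × V → ℝ × V), m.OK → m.Jac → m.Had lg → 0 < a → Fr0 m σ a →
  XI m lg a δ c K o X → (∀ v, ‖v‖ = 1 → a * ‖lg ((σ v).1, o)‖ ≤ 3 / 2) →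
  CYP.Loc K (3 / 2) s l (fun v => (X (σ v)).1) (fun v => (X (σ v)).2) fun v => a • lg (o, (σ v).1)

variable {m : MF} {lg : V × V → V} {σ : V → V × V} {a c K δ : ℝ} {s l : ℝ≥0}

theorem m_nu (ho : m.OK) (hf : Fr0 m σ a) :
    Measurable (nu (m.A' σ) fun v => a • m.B σ v) := by
  have mσ : Measurable σ := measurable_of_continuousOn_compl_singleton 0 hf.c0
  have c : Continuous fun p : (V × V) × (V →L[ℝ] V × V) =>
      ((m.hor p.1).comp p.2, (m.ver p.1).comp p.2) :=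
    (((SC.c_hor ho).comp continuous_fst).clm_comp continuous_snd).prodMk
      (((SC.c_ver ho).comp continuous_fst).clm_comp continuous_snd)
  exact (CYO.m_Pw a).comp (c.measurable.comp (mσ.prodMk (measurable_fderiv ℝ σ)))

theorem datZ (ho : m.OK) (hj : m.Jac) (hl : m.Had lg) (ha : 0 < a) (hf : Fr0 m σ a) {o : V}
    {X : V × V → ℝ × V} (xi : XI m lg a δ c K o X)
    (bF : ∀ v, ‖v‖ = 1 → a * ‖lg ((σ v).1, o)‖ ≤ 3 / 2) (hs : (s : ℝ) ^ 2 ≤ 1 - 1 / (4 * K ^ 2))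
    (lc : CYP.Loc K (3 / 2) s l (fun v => (X (σ v)).1) (fun v => (X (σ v)).2)
      fun v => a • lg (o, (σ v).1)) {τ : V → ℝ} {Y G : V → V}
    (ch : CYP.Chart K (3 / 2) s l (fun v => (X (σ v)).1) τ (fun v => (X (σ v)).2) Y
      (fun v => a • lg (o, (σ v).1)) G) :
    DatZ K (c * δ) (fun v => (X (σ v)).1) τ (fun v => (X (σ v)).2) Y
      (fun v => a • lg (o, (σ v).1)) G (m.A' σ) (fun v => a • m.B σ v)
      {v | DifferentiableAt ℝ σ v ∧ (m.A' σ v).det ≠ 0 ∧ a * ‖m.B σ v‖ ≤ 1 ∧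
        ∀ e, ⟪(σ v).2, m.A σ v e⟫ = 0} := by
  have sub : {v : V | ‖v‖ = 1} ⊆ {v | v ≠ 0} := fun v hv => DNWI.ne_of_norm hv
  have nF : ∀ v, ‖a • lg (o, (σ v).1)‖ = a * ‖lg ((σ v).1, o)‖ := fun v => by
    rw [norm_smul, Real.norm_eq_abs, abs_of_pos ha, DNWI.lg_symm hj hl]
  have nB : ∀ v, ‖a • m.B σ v‖ = a * ‖m.B σ v‖ := fun v => by
    rw [norm_smul, Real.norm_eq_abs, abs_of_pos ha]
  have dX : ∀ v, DifferentiableAt ℝ σ v → HasFDerivAt (fun v => X (σ v))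
      ((fderiv ℝ X (σ v)).comp (fderiv ℝ σ v)) v := fun v d =>
    (xi.c1.differentiable one_ne_zero _).hasFDerivAt.comp v d.hasFDerivAt
  have dF : ∀ v, DifferentiableAt ℝ σ v → HasFDerivAt (fun v => a • lg (o, (σ v).1))
      (a • (fderiv ℝ (fun z => lg (o, z)) (σ v).1).comp
        ((ContinuousLinearMap.fst ℝ V V).comp (fderiv ℝ σ v))) v := fun v d =>
    ((DER.dif hl o (σ v).1).comp v d.hasFDerivAt.fst).fun_const_smul a
  refine ⟨ch.cX.continuousOn, fun u hu => (ch.rX u hu).2, ch.lX, ch.eτ, ch.eG, ch.hτ,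
    fun r u hr _ => ch.hG r u hr, ⟨s, ch.lτ, hs⟩, lc.cF.mono sub, fun v hv => ⟨?_, lc.bd v hv⟩,
    hf.gd, ((m_nu ho hf).comp measurable_subtype_coe).aestronglyMeasurable,
    fun v g _ => ⟨(dX v g.1).snd.differentiableAt, (dX v g.1).fst.differentiableAt,
      (dF v g.1).differentiableAt, g.2.1, (nB v).trans_le g.2.2.1⟩, fun v g hv e => ?_,
    covZ lc.cx (fun r x hr hx => lc.hx r x hr.ne' hx) (fun x hx y hy e => by
      rw [← (ch.lX x hx).2, ← (ch.lX y hy).2]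
      exact congrArg Y e) fun x hx => (ch.lX x hx).1⟩
  · rw [xi.nm, hf.norm v (sub hv), hv, one_pow]
  · have eB : ‖(a • m.B σ v) (m.A' σ v e)‖ = a * ‖m.A σ v e‖ := by
      rw [smul_apply, B_app g.2.1, norm_smul, Real.norm_eq_abs, abs_of_pos ha]
    have le : a * ‖m.A σ v e‖ ≤ ‖m.A' σ v e‖ := by
      rw [← eB]
      refine ((a • m.B σ v).le_opNorm _).trans ?_
      nlinarith [(nB v).trans_le g.2.2.1, norm_nonneg (m.A' σ v e)]
    obtain ⟨β, b0, b1, hβ⟩ := GEO.ratio (by positivity) le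
    obtain ⟨k1, k2, k3⟩ := (xi.est (σ v) ((hf.norm v (sub hv)).trans hv) (bF v hv)).2
      (fderiv ℝ σ v e) β b0 b1 (g.2.2.2 e) hβ.ge
    rw [(dX v g.1).snd.fderiv, (dX v g.1).fst.fderiv, (dF v g.1).fderiv, eB, nF]
    refine ⟨?_, k1, k2, le_of_eq_of_le ?_ k3⟩
    · rw [smul_apply, norm_smul, Real.norm_eq_abs, abs_of_pos ha]
      exact mul_le_mul_of_nonneg_left (DER.le ho hj hl o _ _) ha.le
    · change _ = _ * ‖m.A' σ v e‖ ^ 2
      rw [← hβ]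
      ring

/-- The fibre inequality. -/
theorem fib_of {L μ c₁ : ℝ} (kh : KH) (al : SALG) (hol : SHOL)
    (xi : ∀ (m : MF) (lg : V × V → V) (a : ℝ) (o : V), m.OK → m.Jac → m.Had lg → 0 < a → m.Up 0 →
      m.Up (a ^ 2) → m.Dn ((1 + δ) * a ^ 2) → ∃ X, XI m lg a δ c K o X)
    (two : TWO c K δ s l) (hs : (s : ℝ) ^ 2 ≤ 1 - 1 / (4 * K ^ 2)) (hK : 1 ≤ K) (k0 : 0 ≤ c * δ)
    (k1 : c * δ ≤ 1 / 12) (hL : 2 * K * l + 3 / 2 ≤ L) (ks : SKS L c₁ μ) (c0 : 0 ≤ c₁)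
    (c1 : c₁ ≤ 1 / (32 * K ^ 2)) (μ0 : 0 ≤ μ)
    (hμ : (1 + 4 * K ^ 2) * (32 * dm * (c * δ) ^ 2 + 16 * K ^ 4) ≤ μ * dm) : SFIB δ := by
  intro m lg σ a ho hj hl ha u0 u1 d1 hf hd
  have sub : {v : V | ‖v‖ = 1} ⊆ {v | v ≠ 0} := fun v hv => DNWI.ne_of_norm hv
  have e0 : ‖(EuclideanSpace.single (0 : Fin dm) 1 : V)‖ = 1 := by simp
  have iν : Integrable (fun v : sphere (0 : V) 1 => nu (m.A' σ) (fun v => a • m.B σ v) v) sm := by
    obtain ⟨X, hX⟩ := xi m lg a (σ (EuclideanSpace.single 0 1)).1 ho hj hl ha u0 u1 d1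
    have lc := two m lg σ a _ X ho hj hl ha hf hX fun v hv => hd v _ hv e0
    obtain ⟨τ, Y, G, ch⟩ := lc.chart
    exact sNU_of kh al _ _ _ _ _ _ _ _ _ _ _ hK k0 k1
      (datZ ho hj hl ha hf hX (fun v hv => hd v _ hv e0) hs lc ch)
  obtain ⟨o, o1, o2⟩ := cenZ ho hj hl (y := fun v => (σ v).1) (D := 3 / 2 / a)
    (hf.c0.mono sub).fst (fun v _ => nu_pos _ _ v) iν fun v v' hv hv' => by
      rw [le_div_iff₀ ha, mul_comm]
      exact hd v v' hv hv'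
  have bF : ∀ v, ‖v‖ = 1 → a * ‖lg ((σ v).1, o)‖ ≤ 3 / 2 := fun v hv => by
    have k := o1 v hv
    rwa [le_div_iff₀ ha, mul_comm, DNWI.lg_symm hj hl] at k
  obtain ⟨X, hX⟩ := xi m lg a o ho hj hl ha u0 u1 d1
  have lc := two m lg σ a o X ho hj hl ha hf hX bF
  obtain ⟨τ, Y, G, ch⟩ := lc.chart
  have dz := datZ ho hj hl ha hf hX bF hs lc ch
  obtain ⟨w, -, i2, s2⟩ := CY.ksl (L := L) (by
      rw [Real.coe_toNNReal _ (by positivity)]
      exact hL) ks c0 μ0 (fun r x hr _ => ch.hG r x hr) (fun u _ => ch.bG u) ch.lG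
  have key := sGIBZ_of kh al hol _ _ μ c₁ _ _ _ _ _ _ _ _ _ w hK k0 k1 hμ c0 c1 dz ch.mG i2 s2 (by
    have k := mul_le_mul_of_nonneg_left (o2 (a⁻¹ • w)) (sq_nonneg a)
    rw [← sph_mul, ← sph_mul] at k
    refine (sph_congr fun v _ => ?_).trans_le (k.trans_eq (sph_congr fun v _ => ?_))
    · rw [norm_smul, Real.norm_eq_abs, mul_pow, sq_abs]
      ring
    · have e : a • lg (o, (σ v).1) - w = a • (lg (o, (σ v).1) - a⁻¹ • w) := by
        rw [smul_sub, smul_inv_smul₀ ha.ne']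
      rw [e, norm_smul, Real.norm_eq_abs, mul_pow, sq_abs]
      ring)
  obtain ⟨f1, f2⟩ := feet (fun v _ => nu_pos _ _ v) iν
    (hf.gd.mono fun v g => mul_pos (abs_pos.2 g.2.1) (Real.exp_pos _)) dz.cF key
  refine ⟨f1, fun e v v' hv hv' => ?_⟩
  have z : ∀ v, ‖v‖ = 1 → (σ v).1 = (m.Z 1 (o, 0)).1 := fun v hv => by
    rw [← (smul_eq_zero.1 (f2 e v hv)).resolve_left ha.ne', hl.ex]
  rw [z v hv, z v' hv']

end Pool.Agent.MP_3ee8cb_gt.CYC
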